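import Pool.Agent.K1H80.KA.Stm

/-!
# MP_188fab_co, part (a): assembly from the pieces
-/

namespace Pool.Agent.KA

open MvPolynomial

/-- `(i)_F → (iii)`. -/
theorem forest_of_algInd (hT : TREEStm) (hT2 : TREE2Stm) (F : Type) [Field F] (n : ℕ) (ι : Type)
    [Fintype ι] (a b : ι → Fin n) (hab : ∀ e, a e ≠ b e)
    (h : AlgebraicIndependent F (fun e => fm F n (a e, b e))) :
    ∃ σ : Equiv.Perm (Fin n), Forest (tl σ a b) (hd σ a b) := by
  obtain ⟨l, h1, h2, h3⟩ := hT F n ι a b hab h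
  exact hT2 n ι a b hab l h1 h2 h3

/-- `(ii)_K → (iii)`. -/
theorem forest_of_linInd (hT : TREEStm) (hT2 : TREE2Stm) (hJ : JACStm) (hJP : JACPStm)
    (hB : BCStm) (hR : ROWStm) (K : Type) [Field K] (n : ℕ) (ι : Type)
    [Fintype ι] (a b : ι → Fin n) (hab : ∀ e, a e ≠ b e)
    (h : LinearIndependent (LL K n) (fun e => row K n (a e, b e))) :
    ∃ σ : Equiv.Perm (Fin n), Forest (tl σ a b) (hd σ a b) := by
  have h1 := hR _ n ι a b hab (hB K (AlgebraicClosure K) n ι a b hab h)
  obtain ⟨p, hp⟩ := CharP.exists (AlgebraicClosure K)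
  rcases CharP.char_is_prime_or_zero (AlgebraicClosure K) p with hp1 | hp1
  · haveI : Fact p.Prime := ⟨hp1⟩
    exact forest_of_algInd hT hT2 (AlgebraicClosure K) n ι a b hab
      (hJP (AlgebraicClosure K) p _ ι _ h1)
  · subst hp1
    haveI : CharZero (AlgebraicClosure K) := CharP.charP_to_charZero _
    exact forest_of_algInd hT hT2 (AlgebraicClosure K) n ι a b hab
      (hJ (AlgebraicClosure K) _ ι _ h1)

/-- The main equivalence. -/
theorem main (hT : TREEStm) (hT2 : TREE2Stm) (hJ : JACStm) (hJP : JACPStm)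
    (hB : BCStm) (hR : ROWStm) (hC : FORCStm) (hD : DIRECTStm)
    (F K : Type) [Field F] [Field K] (n : ℕ) (ι : Type)
    [Finite ι] (a b : ι → Fin n) (hab : ∀ e, a e ≠ b e) :
    AlgebraicIndependent F (fun e => fm F n (a e, b e)) ↔
      LinearIndependent (LL K n) (fun e => row K n (a e, b e)) := by
  haveI := Fintype.ofFinite ι
  constructor
  · intro h
    obtain ⟨σ, hσ⟩ := forest_of_algInd hT hT2 F n ι a b hab h
    exact hC K n ι a b hab σ hσ
  · intro h
    obtain ⟨σ, hσ⟩ := forest_of_linInd hT hT2 hJ hJP hB hR K n ι a b hab h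
    exact hD F n ι a b hab σ hσ

end Pool.Agent.KA
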