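import Pool.Agent.K1H80.KA.Asm
import Pool.Agent.K1H6.KA.Row
import Pool.Agent.K1H68.KA.Tree2
import Pool.Agent.K1H10.KA.Jac
import Pool.Agent.K1H78.KA.Ult
import Pool.Agent.K1H65.KA.Forb
import Pool.Agent.K1H52.KA.BC
import Pool.Agent.K1H1.KA.Jacp
import Pool.Agent.K1H74.KA.VAL
import Pool.Agent.K1H37.KA.Tree
import Pool.Agent.K1H4.KA.Forc
import Pool.Agent.K1H33.KA.Direct
import Pool.Agent.K1H89.KA.Merge

/-!
# MP_188fab_co, part (a): the equivalence
-/

namespace Pool.Agent.KA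

theorem main' (F K : Type) [Field F] [Field K] (n : ℕ) (ι : Type)
    [Finite ι] (a b : ι → Fin n) (hab : ∀ e, a e ≠ b e) :
    AlgebraicIndependent F (fun e => fm F n (a e, b e)) ↔
      LinearIndependent (LL K n) (fun e => row K n (a e, b e)) :=
  main (K1H37.KA.tree K1H74.KA.val (K1H78.KA.ult K1H89.KA.merge)) K1H68.KA.tree2 K1H10.KA.jac K1H1.KA.jacp
    K1H52.KA.bc K1H6.KA.rowjac (K1H4.KA.forc K1H74.KA.val K1H65.KA.forb)
    (K1H33.KA.direct K1H74.KA.val) F K n ι a b hab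

end Pool.Agent.KA
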