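import Pool.Agent.K1H80.KA.StmB
import Pool.Agent.K1H80.KA.Thm

/-!
# MP_188fab_co, part (b) for `H = K_2`: assembly
-/

namespace Pool.Agent.KA

open MvPolynomial Pool.Agent.Results.MP_188fab_co.JacobianCharTwo

theorem rowjac_rev (K : Type) [Field K] (n : ℕ) (ι : Type) [Fintype ι] (a b : ι → Fin n)
    (hab : ∀ e, a e ≠ b e)
    (h : LinearIndependent (FractionRing (MvPolynomial (Fin n × Fin 2) K))
      (fun (e : ι) (s : Fin n × Fin 2) => algebraMap (MvPolynomial (Fin n × Fin 2) K)
        (FractionRing (MvPolynomial (Fin n × Fin 2) K)) (pderiv s (fm K n (a e, b e))))) :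
    LinearIndependent (LL K n) (fun e => row K n (a e, b e)) := by
  rw [Fintype.linearIndependent_iff] at h ⊢
  intro g hg
  refine h g ?_
  have hpt : ∀ s : Fin n × Fin 2, ∑ e, g e * row K n (a e, b e) s = 0 := by
    intro s
    have := congrFun hg s
    rw [Finset.sum_apply] at this
    simpa only [Pi.smul_apply, smul_eq_mul, Pi.zero_apply] using this
  funext s
  obtain ⟨k, t⟩ := s
  rw [Finset.sum_apply]
  simp only [Pi.smul_apply, smul_eq_mul, Pi.zero_apply]
  fin_cases t
  · have h1 := hpt (k, 1)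
    calc ∑ e, g e * algebraMap (MvPolynomial (Fin n × Fin 2) K)
          (FractionRing (MvPolynomial (Fin n × Fin 2) K)) (pderiv (k, (0 : Fin 2))
            (fm K n (a e, b e))) = ∑ e, g e * row K n (a e, b e) (k, 1) := by
          refine Finset.sum_congr rfl fun e _ => ?_
          rw [K1H6.KA.row1 K n (a e, b e) (hab e) k]
      _ = 0 := h1
  · have h1 := hpt (k, 0)
    calc ∑ e, g e * algebraMap (MvPolynomial (Fin n × Fin 2) K)
          (FractionRing (MvPolynomial (Fin n × Fin 2) K)) (pderiv (k, (1 : Fin 2))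
            (fm K n (a e, b e))) = -∑ e, g e * row K n (a e, b e) (k, 0) := by
          rw [← Finset.sum_neg_distrib]
          refine Finset.sum_congr rfl fun e _ => ?_
          rw [K1H6.KA.row0 K n (a e, b e) (hab e) k]
          ring
      _ = 0 := by rw [h1, neg_zero]

/-- The single edge of `K_2`. -/
theorem edge_two (e : Edge (⊤ : SimpleGraph (Fin 2))) : e.1 = (0, 1) := by
  obtain ⟨⟨i, j⟩, h, -⟩ := e
  have h1 : i < j := h
  have h2 : i = 0 ∧ j = 1 := by omega
  exact Prod.ext h2.1 h2.2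

instance : Unique (Edge (⊤ : SimpleGraph (Fin 2))) where
  default := ⟨(0, 1), by decide⟩
  uniq e := Subtype.ext (edge_two e)

theorem gen_two (F : Type) [Field F] (n : ℕ) (G : SimpleGraph (Fin n))
    (e : Edge G × Edge (⊤ : SimpleGraph (Fin 2))) :
    gen F G (⊤ : SimpleGraph (Fin 2)) e = fm F n (e.1.1.1, e.1.1.2) := by
  unfold gen fm
  rw [edge_two e.2]
  ring

instance instFiniteEdge (n : ℕ) (G : SimpleGraph (Fin n)) : Finite (Edge G) := by
  unfold Edge; infer_instance

/-- The hyperconnectivity matrix. -/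
noncomputable def hyper (K : Type) [Field K] {n : ℕ} (G : SimpleGraph (Fin n)) :
    Matrix (Edge G) (Fin n × Fin 2) (LL K n) := Matrix.of fun e => row K n e.1

theorem mainB (hFIB : FIBStm) (hKD : KDStm) (hRK : RKStm) (F K : Type) [Field F] [Field K] (n : ℕ)
    (G : SimpleGraph (Fin n)) :
    ((jacobian F G (⊤ : SimpleGraph (Fin 2))).rank : WithBot ℕ∞) =
      analyticSpread (J F G (⊤ : SimpleGraph (Fin 2))) ∧
    (jacobian F G (⊤ : SimpleGraph (Fin 2))).rank = (hyper K G).rank := by
  classical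
  set ι := Edge G × Edge (⊤ : SimpleGraph (Fin 2)) with hι
  have hne : ∀ e : ι, e.1.1.1 ≠ e.1.1.2 := fun e => e.1.2.1.ne
  -- the equivalences
  have E1 : ∀ (K : Type) [Field K] (S : Set ι),
      AlgebraicIndependent F (fun e : S => gen F G (⊤ : SimpleGraph (Fin 2)) e) ↔
        LinearIndependent (LL K n) (fun e : S => row K n (e.1.1.1.1, e.1.1.1.2)) := by
    intro K _ S
    have h := main' F K n S (fun e => e.1.1.1.1) (fun e => e.1.1.1.2) (fun e => hne e.1)
    rw [← h]
    have : (fun e : S => gen F G (⊤ : SimpleGraph (Fin 2)) (e : ι)) =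
      fun e : S => fm F n (e.1.1.1.1, e.1.1.1.2) := by
      funext e
      exact gen_two F n G e.1
    rw [this]
  have E2 : ∀ S : Set ι, LinearIndependent (LL F n) (fun e : S => row F n (e.1.1.1.1, e.1.1.1.2)) ↔
      LinearIndependent (FractionRing (MvPolynomial (Fin n × Fin 2) F))
        (fun e : S => jacobian F G (⊤ : SimpleGraph (Fin 2)) e) := by
    intro S
    haveI := Fintype.ofFinite S
    have h3 : (fun e : S => jacobian F G (⊤ : SimpleGraph (Fin 2)) e) =
      (fun (e : S) (s : Fin n × Fin 2) => algebraMap (MvPolynomial (Fin n × Fin 2) F)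
        (FractionRing (MvPolynomial (Fin n × Fin 2) F))
          (pderiv s (fm F n (e.1.1.1.1, e.1.1.1.2)))) := by
      funext e s
      show algebraMap _ _ (pderiv s (gen F G (⊤ : SimpleGraph (Fin 2)) e.1)) = _
      rw [gen_two F n G e.1]
    rw [h3]
    exact ⟨K1H6.KA.rowjac F n S (fun e => e.1.1.1.1) (fun e => e.1.1.1.2) (fun e => hne e.1),
      rowjac_rev F n S (fun e => e.1.1.1.1) (fun e => e.1.1.1.2) (fun e => hne e.1)⟩
  -- a maximal independent set
  obtain ⟨S, hS⟩ : ∃ S : Set ι, Maximal (fun S : Set ι =>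
      AlgebraicIndependent F (fun e : S => gen F G (⊤ : SimpleGraph (Fin 2)) e)) S := by
    have hfin : ({S : Set ι | AlgebraicIndependent F
      (fun e : S => gen F G (⊤ : SimpleGraph (Fin 2)) e)}).Finite := Set.toFinite _
    refine hfin.exists_maximal ⟨∅, ?_⟩
    show AlgebraicIndependent F (fun e : (∅ : Set ι) => gen F G (⊤ : SimpleGraph (Fin 2)) e)
    rw [E1 F]
    exact linearIndependent_empty_type
  have hmax : ∀ i, i ∉ S → ¬ AlgebraicIndependent F
      (fun j : (insert i S : Set ι) => gen F G (⊤ : SimpleGraph (Fin 2)) j) := by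
    intro i hi h
    exact hi (hS.2 h (Set.subset_insert i S) (Set.mem_insert i S))
  have hr1 : (jacobian F G (⊤ : SimpleGraph (Fin 2))).rank = Nat.card S := by
    refine hRK _ _ _ _ S ((E2 S).1 ((E1 F S).1 hS.1)) ?_
    intro i hi h
    exact hmax i hi ((E1 F _).2 ((E2 _).2 h))
  have hr2 : ((hyper K G).submatrix (Prod.fst : ι → Edge G) id).rank = Nat.card S := by
    refine hRK _ _ _ _ S ((E1 K S).1 hS.1) ?_
    intro i hi h
    exact hmax i hi ((E1 K _).2 h)
  have hr3 : ((hyper K G).submatrix (Prod.fst : ι → Edge G) id).rank = (hyper K G).rank := by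
    have := Matrix.rank_submatrix (hyper K G) (Equiv.prodUnique (Edge G)
      (Edge (⊤ : SimpleGraph (Fin 2)))) (Equiv.refl (Fin n × Fin 2))
    exact this
  refine ⟨?_, by rw [hr1, ← hr2, hr3]⟩
  have hhom : ∀ i : ι, (gen F G (⊤ : SimpleGraph (Fin 2)) i).IsHomogeneous 2 := by
    intro i
    unfold gen
    exact ((isHomogeneous_X F _).mul (isHomogeneous_X F _)).sub
      ((isHomogeneous_X F _).mul (isHomogeneous_X F _))
  rw [J, hFIB F _ ι _ hhom, hKD F _ ι _ S hS.1 hmax, hr1]

end Pool.Agent.KA
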