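import Pool.Agent.K1H80.KA.StmC

/-!
# MP_188fab_co, part (b) for graphs built from a triangle: assembly
-/

namespace Pool.Agent.KA

open MvPolynomial Pool.Agent.Results.MP_188fab_co.JacobianCharTwo

theorem Built.nonempty {V : Type} [DecidableEq V] {G : SimpleGraph V} {A : Finset V}
    (h : Built G A) : A.Nonempty := by
  induction h with
  | tri a b c _ _ _ => exact ⟨a, by simp⟩
  | ext A v a b _ _ _ _ _ _ _ _ => exact ⟨v, by simp⟩

section
variable (F : Type) [Field F] {V W : Type} [Fintype V] [Fintype W] [LinearOrder V] [LinearOrder W]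
  (G : SimpleGraph V) (H : SimpleGraph W)

/-- The variable `x_{i,k}` in the fraction field. -/
noncomputable def xx (i : V) (k : W) : FractionRing (MvPolynomial (V × W) F) :=
  algebraMap (MvPolynomial (V × W) F) (FractionRing (MvPolynomial (V × W) F)) (X (i, k))

variable {G H}

theorem exists_edge {i j : V} {k l : W} (hij : G.Adj i j) (hkl : H.Adj k l) :
    ∃ e : Edge G × Edge H,
      (e.1.1.1 = i ∧ e.1.1.2 = j ∨ e.1.1.1 = j ∧ e.1.1.2 = i) ∧
      (e.2.1.1 = k ∧ e.2.1.2 = l ∨ e.2.1.1 = l ∧ e.2.1.2 = k) := by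
  have h1 : ∃ e : Edge G, (e.1.1 = i ∧ e.1.2 = j ∨ e.1.1 = j ∧ e.1.2 = i) := by
    rcases lt_or_gt_of_ne hij.ne with h | h
    · exact ⟨⟨(i, j), h, hij⟩, Or.inl ⟨rfl, rfl⟩⟩
    · exact ⟨⟨(j, i), h, hij.symm⟩, Or.inr ⟨rfl, rfl⟩⟩
  have h2 : ∃ e : Edge H, (e.1.1 = k ∧ e.1.2 = l ∨ e.1.1 = l ∧ e.1.2 = k) := by
    rcases lt_or_gt_of_ne hkl.ne with h | h
    · exact ⟨⟨(k, l), h, hkl⟩, Or.inl ⟨rfl, rfl⟩⟩
    · exact ⟨⟨(l, k), h, hkl.symm⟩, Or.inr ⟨rfl, rfl⟩⟩
  obtain ⟨e1, he1⟩ := h1
  obtain ⟨e2, he2⟩ := h2
  exact ⟨(e1, e2), he1, he2⟩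

theorem gen_map (e : Edge G × Edge H) :
    algebraMap (MvPolynomial (V × W) F) (FractionRing (MvPolynomial (V × W) F)) (gen F G H e) =
      xx F e.1.1.1 e.2.1.1 * xx F e.1.1.2 e.2.1.2 - xx F e.1.1.1 e.2.1.2 * xx F e.1.1.2 e.2.1.1 := by
  unfold gen xx
  rw [map_sub, map_mul, map_mul]

theorem sum_pderiv (a b : V × W) (u : V × W → FractionRing (MvPolynomial (V × W) F)) :
    ∑ v, algebraMap (MvPolynomial (V × W) F) (FractionRing (MvPolynomial (V × W) F))
      (pderiv v (X a * X b)) * u v =
      algebraMap (MvPolynomial (V × W) F) (FractionRing (MvPolynomial (V × W) F)) (X a) * u b +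
      algebraMap (MvPolynomial (V × W) F) (FractionRing (MvPolynomial (V × W) F)) (X b) * u a := by
  classical
  have h : ∀ v, algebraMap (MvPolynomial (V × W) F) (FractionRing (MvPolynomial (V × W) F))
      (pderiv v (X a * X b)) * u v =
      (if v = b then algebraMap (MvPolynomial (V × W) F) (FractionRing (MvPolynomial (V × W) F))
        (X a) * u b else 0) +
      (if v = a then algebraMap (MvPolynomial (V × W) F) (FractionRing (MvPolynomial (V × W) F))
        (X b) * u a else 0) := by
    intro v
    have e1 : ∀ c : V × W, pderiv v (X c : MvPolynomial (V × W) F) = if v = c then 1 else 0 := by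
      intro c
      by_cases hc : v = c
      · subst hc
        rw [pderiv_X_self, if_pos rfl]
      · rw [pderiv_X_of_ne (Ne.symm hc), if_neg hc]
    rw [pderiv_mul, e1, e1]
    by_cases h1 : v = a
    · by_cases h2 : v = b
      · rw [if_pos h1, if_pos h2, if_pos h2, if_pos h1, one_mul, mul_one, map_add, add_mul,
          ← h1, ← h2, add_comm]
      · rw [if_pos h1, if_neg h2, if_neg h2, if_pos h1, one_mul, mul_zero, add_zero, zero_add,
          ← h1]
    · by_cases h2 : v = b
      · rw [if_neg h1, if_pos h2, if_pos h2, if_neg h1, zero_mul, mul_one, add_zero, zero_add,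
          ← h2]
      · rw [if_neg h1, if_neg h2, if_neg h2, if_neg h1, zero_mul, mul_zero, add_zero, map_zero,
          zero_mul, add_zero]
  rw [Finset.sum_congr rfl fun v _ => h v, Finset.sum_add_distrib]
  simp

theorem mulVec_eq (u : V × W → FractionRing (MvPolynomial (V × W) F)) (e : Edge G × Edge H) :
    (jacobian F G H).mulVec u e =
      u (e.1.1.1, e.2.1.1) * xx F e.1.1.2 e.2.1.2 + xx F e.1.1.1 e.2.1.1 * u (e.1.1.2, e.2.1.2) -
      u (e.1.1.1, e.2.1.2) * xx F e.1.1.2 e.2.1.1 -
      xx F e.1.1.1 e.2.1.2 * u (e.1.1.2, e.2.1.1) := by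
  have h : (jacobian F G H).mulVec u e = ∑ v, algebraMap (MvPolynomial (V × W) F)
      (FractionRing (MvPolynomial (V × W) F)) (pderiv v (gen F G H e)) * u v := rfl
  rw [h]
  unfold gen
  simp only [map_sub, sub_mul, Finset.sum_sub_distrib]
  rw [sum_pderiv, sum_pderiv]
  unfold xx
  ring

end

theorem mainC (hC : CONStm) (hL : LINStm) (hA : ALGStm) (hGn : GENStm) (hT : TRBStm)
    (hR : RKCStm) (hFIB : FIBStm) (hKD : KDStm) (F : Type) [Field F] {V W : Type}
    [Fintype V] [Fintype W] [LinearOrder V] [LinearOrder W] (G : SimpleGraph V)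
    (H : SimpleGraph W) (hG : Built G Finset.univ) (hH : Built H Finset.univ) :
    analyticSpread (J F G H) = ((Fintype.card V * Fintype.card W : ℕ) : WithBot ℕ∞) ∧
      (((jacobian F G H).rank : WithBot ℕ∞) = analyticSpread (J F G H) ↔ ringChar F ≠ 2) := by
  classical
  have hgen : Gen (xx F : V → W → _) := hGn F V W
  haveI hfe : Finite (Edge G × Edge H) := by unfold Edge; infer_instance
  -- the variables are algebraic over `F(f)`
  set K0 := IntermediateField.adjoin F (Set.range fun e : Edge G × Edge H =>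
    algebraMap (MvPolynomial (V × W) F) (FractionRing (MvPolynomial (V × W) F)) (gen F G H e))
    with hK0
  have halg : ∀ v : V × W, IsAlgebraic K0
      (algebraMap (MvPolynomial (V × W) F) (FractionRing (MvPolynomial (V × W) F)) (X v)) := by
    intro v
    have h1 := hA V W _ G H (xx F) hgen (algebraicClosure K0 (FractionRing
      (MvPolynomial (V × W) F))).toSubfield ?_ ?_ Finset.univ Finset.univ hG hH v.1
        (Finset.mem_univ _) v.2 (Finset.mem_univ _)
    · exact mem_algebraicClosure_iff.1 h1
    · intro z hz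
      have hz' : IsAlgebraic K0 (z ^ 2) := mem_algebraicClosure_iff.1 hz
      exact mem_algebraicClosure_iff.2 (hz'.of_pow two_pos)
    · intro i j k l hij hkl
      obtain ⟨e, he1, he2⟩ := exists_edge hij hkl
      have h2 : xx F e.1.1.1 e.2.1.1 * xx F e.1.1.2 e.2.1.2 -
          xx F e.1.1.1 e.2.1.2 * xx F e.1.1.2 e.2.1.1 ∈ (algebraicClosure K0 (FractionRing
            (MvPolynomial (V × W) F))).toSubfield := by
        rw [← gen_map]
        have h3 : algebraMap (MvPolynomial (V × W) F) (FractionRing (MvPolynomial (V × W) F))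
            (gen F G H e) ∈ K0 := IntermediateField.subset_adjoin _ _ ⟨e, rfl⟩
        exact mem_algebraicClosure_iff.2 (isAlgebraic_algebraMap (⟨_, h3⟩ : K0))
      rcases he1 with ⟨a1, a2⟩ | ⟨a1, a2⟩ <;> rcases he2 with ⟨b1, b2⟩ | ⟨b1, b2⟩ <;>
        rw [a1, a2, b1, b2] at h2
      · exact h2
      · have := neg_mem h2
        convert this using 1
        ring
      · have := neg_mem h2
        convert this using 1
        ring
      · convert h2 using 1
        ring
  -- a maximal independent set
  obtain ⟨S, hS⟩ : ∃ S : Set (Edge G × Edge H), Maximal (fun S : Set (Edge G × Edge H) =>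
      AlgebraicIndependent F (fun e : S => gen F G H e)) S := by
    have hfin : ({S : Set (Edge G × Edge H) | AlgebraicIndependent F
      (fun e : S => gen F G H e)}).Finite := Set.toFinite _
    refine hfin.exists_maximal ⟨∅, ?_⟩
    show AlgebraicIndependent F (fun e : (∅ : Set (Edge G × Edge H)) => gen F G H e)
    haveI : IsEmpty (∅ : Set (Edge G × Edge H)) := Set.isEmpty_coe_sort.2 rfl
    rw [algebraicIndependent_empty_type_iff]
    exact FaithfulSMul.algebraMap_injective F _
  have hmax : ∀ i, i ∉ S → ¬ AlgebraicIndependent F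
      (fun j : (insert i S : Set (Edge G × Edge H)) => gen F G H j) := by
    intro i hi h
    exact hi (hS.2 h (Set.subset_insert i S) (Set.mem_insert i S))
  have hcard : Nat.card S = Fintype.card V * Fintype.card W := by
    rw [hT F _ _ _ S hS.1 hmax halg, Nat.card_prod, Nat.card_eq_fintype_card,
      Nat.card_eq_fintype_card]
  have hhom : ∀ i : Edge G × Edge H, (gen F G H i).IsHomogeneous 2 := by
    intro i
    unfold gen
    exact ((isHomogeneous_X F _).mul (isHomogeneous_X F _)).sub
      ((isHomogeneous_X F _).mul (isHomogeneous_X F _))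
  have hspread : analyticSpread (J F G H) =
      ((Fintype.card V * Fintype.card W : ℕ) : WithBot ℕ∞) := by
    rw [J, hFIB F _ _ _ hhom, hKD F _ _ _ S hS.1 hmax, hcard]
  refine ⟨hspread, ?_⟩
  rw [hspread]
  have hc2 : ringChar F = 2 ↔ (2 : FractionRing (MvPolynomial (V × W) F)) = 0 := by
    have h1 : (2 : FractionRing (MvPolynomial (V × W) F)) =
      algebraMap F (FractionRing (MvPolynomial (V × W) F)) 2 := by
      rw [map_ofNat]
    rw [h1, map_eq_zero]
    constructor
    · intro h
      have := ringChar.spec F 2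
      have h2 := this.2 (by rw [h])
      exact_mod_cast h2
    · intro h
      have h2 : ringChar F ∣ 2 := (ringChar.spec F 2).1 (by exact_mod_cast h)
      rcases (Nat.dvd_prime Nat.prime_two).1 h2 with h3 | h3
      · exact absurd h3 (CharP.ringChar_ne_one)
      · exact h3
  constructor
  · intro h hchar
    have h2 := hc2.1 hchar
    have hx : (jacobian F G H).mulVec (fun v => xx F v.1 v.2) = 0 := by
      funext e
      rw [mulVec_eq]
      show _ = (0 : FractionRing (MvPolynomial (V × W) F))
      have : ∀ a b c d : FractionRing (MvPolynomial (V × W) F),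
          a * b + a * b - c * d - c * d = 2 * (a * b - c * d) := fun a b c d => by ring
      rw [this, h2, zero_mul]
    obtain ⟨i, -⟩ := hG.nonempty
    obtain ⟨k, -⟩ := hH.nonempty
    have hx0 : (fun v : V × W => xx F v.1 v.2) ≠ 0 := fun h0 =>
      hgen.ne i k (congrFun h0 (i, k))
    have := (hR _ _ _ (jacobian F G H)).2 _ hx0 hx
    rw [Fintype.card_prod] at this
    have h3 : (jacobian F G H).rank = Fintype.card V * Fintype.card W := by exact_mod_cast h
    omega
  · intro h
    have h2 : (2 : FractionRing (MvPolynomial (V × W) F)) ≠ 0 := fun h0 => h (hc2.2 h0)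
    have h3 := (hR _ _ _ (jacobian F G H)).1 ?_
    · rw [h3, Fintype.card_prod]
    · intro u hu
      funext v
      refine hL V W _ G H (xx F) h2 hgen (fun i k => u (i, k)) ?_ Finset.univ Finset.univ hG hH
        v.1 (Finset.mem_univ _) v.2 (Finset.mem_univ _)
      intro i j k l hij hkl
      obtain ⟨e, he1, he2⟩ := exists_edge hij hkl
      have h4 := congrFun hu e
      rw [mulVec_eq, Pi.zero_apply] at h4
      rcases he1 with ⟨a1, a2⟩ | ⟨a1, a2⟩ <;> rcases he2 with ⟨b1, b2⟩ | ⟨b1, b2⟩ <;>
        rw [a1, a2, b1, b2] at h4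
      · linear_combination h4
      · linear_combination -h4
      · linear_combination -h4
      · linear_combination h4

end Pool.Agent.KA
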