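import Pool.Agent.K1H80.KA.StmT
import Pool.Agent.K1H80.KA.AsmC

/-!
# MP_188fab_co, part (b) for connected graphs of minimum degree two: assembly
-/

namespace Pool.Agent.KA

open MvPolynomial Pool.Agent.Results.MP_188fab_co.JacobianCharTwo

theorem mainX (hT : TRBStm)
    (hR : RKCStm) (hFIB : FIBStm) (hKD : KDStm) (F : Type) [Field F] {V W : Type}
    [Fintype V] [Fintype W] [LinearOrder V] [LinearOrder W] (G : SimpleGraph V)
    (H : SimpleGraph W) (hV : Nonempty V) (hW : Nonempty W)
    (hgen : Gen (xx F : V → W → _))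
    (halg : ∀ v : V × W, IsAlgebraic (IntermediateField.adjoin F
      (Set.range fun e : Edge G × Edge H =>
        algebraMap (MvPolynomial (V × W) F) (FractionRing (MvPolynomial (V × W) F))
          (gen F G H e)))
      (algebraMap (MvPolynomial (V × W) F) (FractionRing (MvPolynomial (V × W) F)) (X v)))
    (hlin : (2 : FractionRing (MvPolynomial (V × W) F)) ≠ 0 →
      ∀ u : V → W → FractionRing (MvPolynomial (V × W) F),
      (∀ i j k l, G.Adj i j → H.Adj k l →
        u i k * xx F j l + xx F i k * u j l - u i l * xx F j k - xx F i l * u j k = 0) →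
      ∀ i k, u i k = 0) :
    analyticSpread (J F G H) = ((Fintype.card V * Fintype.card W : ℕ) : WithBot ℕ∞) ∧
      (((jacobian F G H).rank : WithBot ℕ∞) = analyticSpread (J F G H) ↔ ringChar F ≠ 2) := by
  classical
  haveI hfe : Finite (Edge G × Edge H) := by unfold Edge; infer_instance
  -- a maximal independent set
  obtain ⟨S, hS⟩ : ∃ S : Set (Edge G × Edge H), Maximal (fun S : Set (Edge G × Edge H) =>
      AlgebraicIndependent F (fun e : S => gen F G H e)) S := by
    have hfin : ({S : Set (Edge G × Edge H) | AlgebraicIndependent F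
      (fun e : S => gen F G H e)}).Finite := Set.toFinite _
    refine hfin.exists_maximal ⟨∅, ?_⟩
    show AlgebraicIndependent F (fun e : (∅ : Set (Edge G × Edge H)) => gen F G H e)
    haveI : IsEmpty (∅ : Set (Edge G × Edge H)) := Set.isEmpty_coe_sort.2 rfl
    rw [algebraicIndependent_empty_type_iff]
    exact FaithfulSMul.algebraMap_injective F _
  have hmax : ∀ i, i ∉ S → ¬ AlgebraicIndependent F
      (fun j : (insert i S : Set (Edge G × Edge H)) => gen F G H j) := by
    intro i hi h
    exact hi (hS.2 h (Set.subset_insert i S) (Set.mem_insert i S))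
  have hcard : Nat.card S = Fintype.card V * Fintype.card W := by
    rw [hT F _ _ _ S hS.1 hmax halg, Nat.card_prod, Nat.card_eq_fintype_card,
      Nat.card_eq_fintype_card]
  have hhom : ∀ i : Edge G × Edge H, (gen F G H i).IsHomogeneous 2 := by
    intro i
    unfold gen
    exact ((isHomogeneous_X F _).mul (isHomogeneous_X F _)).sub
      ((isHomogeneous_X F _).mul (isHomogeneous_X F _))
  have hspread : analyticSpread (J F G H) =
      ((Fintype.card V * Fintype.card W : ℕ) : WithBot ℕ∞) := by
    rw [J, hFIB F _ _ _ hhom, hKD F _ _ _ S hS.1 hmax, hcard]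
  refine ⟨hspread, ?_⟩
  rw [hspread]
  have hc2 : ringChar F = 2 ↔ (2 : FractionRing (MvPolynomial (V × W) F)) = 0 := by
    have h1 : (2 : FractionRing (MvPolynomial (V × W) F)) =
      algebraMap F (FractionRing (MvPolynomial (V × W) F)) 2 := by
      rw [map_ofNat]
    rw [h1, map_eq_zero]
    constructor
    · intro h
      have := ringChar.spec F 2
      have h2 := this.2 (by rw [h])
      exact_mod_cast h2
    · intro h
      have h2 : ringChar F ∣ 2 := (ringChar.spec F 2).1 (by exact_mod_cast h)
      rcases (Nat.dvd_prime Nat.prime_two).1 h2 with h3 | h3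
      · exact absurd h3 (CharP.ringChar_ne_one)
      · exact h3
  constructor
  · intro h hchar
    have h2 := hc2.1 hchar
    have hx : (jacobian F G H).mulVec (fun v => xx F v.1 v.2) = 0 := by
      funext e
      rw [mulVec_eq]
      show _ = (0 : FractionRing (MvPolynomial (V × W) F))
      have : ∀ a b c d : FractionRing (MvPolynomial (V × W) F),
          a * b + a * b - c * d - c * d = 2 * (a * b - c * d) := fun a b c d => by ring
      rw [this, h2, zero_mul]
    obtain ⟨i⟩ := hV
    obtain ⟨k⟩ := hW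
    have hx0 : (fun v : V × W => xx F v.1 v.2) ≠ 0 := fun h0 =>
      hgen.ne i k (congrFun h0 (i, k))
    have := (hR _ _ _ (jacobian F G H)).2 _ hx0 hx
    rw [Fintype.card_prod] at this
    have h3 : (jacobian F G H).rank = Fintype.card V * Fintype.card W := by exact_mod_cast h
    omega
  · intro h
    have h2 : (2 : FractionRing (MvPolynomial (V × W) F)) ≠ 0 := fun h0 => h (hc2.2 h0)
    have h3 := (hR _ _ _ (jacobian F G H)).1 ?_
    · rw [h3, Fintype.card_prod]
    · intro u hu
      funext v
      refine hlin h2 (fun i k => u (i, k)) ?_ v.1 v.2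
      intro i j k l hij hkl
      obtain ⟨e, he1, he2⟩ := exists_edge hij hkl
      have h4 := congrFun hu e
      rw [mulVec_eq, Pi.zero_apply] at h4
      rcases he1 with ⟨a1, a2⟩ | ⟨a1, a2⟩ <;> rcases he2 with ⟨b1, b2⟩ | ⟨b1, b2⟩ <;>
        rw [a1, a2, b1, b2] at h4
      · linear_combination h4
      · linear_combination -h4
      · linear_combination -h4
      · linear_combination h4

/-- Propagation along a connected graph of minimum degree two. -/
theorem prop {V : Type} (G : SimpleGraph V) (hG : G.Connected)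
    (hG2 : ∀ v, ∃ a b, a ≠ b ∧ G.Adj v a ∧ G.Adj v b) (Z : Set V) (z : V) (hz : z ∈ Z)
    (h : ∀ a v y, G.Adj a v → G.Adj v y → a ≠ y → a ∈ Z → v ∈ Z) : ∀ v, v ∈ Z := by
  have h1 : ∀ a v, G.Adj a v → a ∈ Z → v ∈ Z := by
    intro a v hav ha
    obtain ⟨b, b', hbb, hb, hb'⟩ := hG2 v
    by_cases hab : a = b
    · exact h a v b' hav hb' (fun h => hbb (hab.symm.trans h)) ha
    · exact h a v b hav hb hab ha
  intro v
  obtain ⟨w⟩ := hG.preconnected z v
  induction w with
  | nil => exact hz
  | cons hadj p ih => exact ih (h1 _ _ hadj hz)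

theorem good_univ {W : Type} (H : SimpleGraph W) (hH : H.Connected) (m : ℕ)
    (c : Fin (m + 3) → W) (hc : Function.Injective c) (hadj : ∀ t, H.Adj (c t) (c (t + 1))) :
    Good H Set.univ where
  con := by
    intro T g hg
    have h1 : ∀ k l, g k = g l := by
      intro k l
      obtain ⟨w⟩ := hH.preconnected k l
      induction w with
      | nil => rfl
      | cons hadj p ih => exact (hg _ (Set.mem_univ _) _ (Set.mem_univ _) hadj).trans ih
    exact fun k _ l _ => h1 k l
  cyc := ⟨m, c, hc, fun _ => Set.mem_univ _, hadj⟩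

theorem good_tri {V : Type} (G : SimpleGraph V) (a : Fin 3 → V)
    (ha : ∀ s t, s ≠ t → G.Adj (a s) (a t)) : Good G (Set.range a) where
  con := by
    rintro T g hg _ ⟨s, rfl⟩ _ ⟨t, rfl⟩
    by_cases hst : s = t
    · rw [hst]
    · exact hg _ ⟨s, rfl⟩ _ ⟨t, rfl⟩ (ha s t hst)
  cyc := by
    refine ⟨0, a, ?_, fun t => ⟨t, rfl⟩, fun t => ha _ _ ?_⟩
    · intro s t hst
      by_contra hne
      exact (ha s t hne).ne hst
    · intro h
      have : ∀ t : Fin 3, t ≠ t + 1 := by decide
      exact this t h

theorem gen_swap {V W L : Type} [Field L] {x : V → W → L} (h : Gen x) :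
    Gen (fun k i => x i k) where
  ne k i := h.ne i k
  two k l i j hkl hij := by
    have := h.two i j k l hij hkl
    rwa [mul_comm (x j k), ] at *
  three b a hb ha := by
    have := h.three a b ha hb
    rw [← Matrix.det_transpose] at this
    exact this

theorem mainT (hSL : STEPLINStm) (hBL : BASELINStm) (hSA : STEPALGStm) (hBA : BASEALGStm)
    (hAr : AREAStm) (hNB : NBStm) (hGn : GENStm) (hT : TRBStm)
    (hR : RKCStm) (hFIB : FIBStm) (hKD : KDStm) (F : Type) [Field F] {V W : Type}
    [Fintype V] [Fintype W] [LinearOrder V] [LinearOrder W] (G : SimpleGraph V)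
    (H : SimpleGraph W) (hG : G.Connected) (hH : H.Connected)
    (hG2 : ∀ v, 2 ≤ (G.neighborSet v).ncard) (hH2 : ∀ w, 2 ≤ (H.neighborSet w).ncard)
    (htri : ¬ G.CliqueFree 3) (hnb : ¬ H.Colorable 2) :
    analyticSpread (J F G H) = ((Fintype.card V * Fintype.card W : ℕ) : WithBot ℕ∞) ∧
      (((jacobian F G H).rank : WithBot ℕ∞) = analyticSpread (J F G H) ↔ ringChar F ≠ 2) := by
  classical
  have hG3 : ∀ v, ∃ a b, a ≠ b ∧ G.Adj v a ∧ G.Adj v b := by
    intro v
    obtain ⟨a, b, h1, h2, h3⟩ := (Set.one_lt_ncard_iff (Set.toFinite _)).1 (hG2 v)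
    exact ⟨a, b, h3, h1, h2⟩
  have hH3 : ∀ v, ∃ a b, a ≠ b ∧ H.Adj v a ∧ H.Adj v b := by
    intro v
    obtain ⟨a, b, h1, h2, h3⟩ := (Set.one_lt_ncard_iff (Set.toFinite _)).1 (hH2 v)
    exact ⟨a, b, h3, h1, h2⟩
  let emb := SimpleGraph.topEmbeddingOfNotCliqueFree htri
  have hadja : ∀ s t, s ≠ t → G.Adj (emb s) (emb t) := fun s t hst =>
    emb.map_rel_iff.2 ((SimpleGraph.top_adj s t).2 hst)
  set a : Fin 3 → V := fun s => emb s with hadef
  obtain ⟨m, c, hodd, hcinj, hcadj⟩ := hNB W H hnb
  have goodA : Good G (Set.range a) := good_tri G a hadja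
  have goodH : Good H Set.univ := good_univ H hH m c hcinj hcadj
  have hgen : Gen (xx F : V → W → _) := hGn F V W
  have hgen' : Gen (fun (k : W) (i : V) => xx F i k) := gen_swap hgen
  obtain ⟨har1, har2⟩ := hAr F V W
  refine mainX hT hR hFIB hKD F G H ⟨a 0⟩ ⟨c 0⟩ hgen ?_ ?_
  · -- algebraicity
    set K0 := IntermediateField.adjoin F (Set.range fun e : Edge G × Edge H =>
      algebraMap (MvPolynomial (V × W) F) (FractionRing (MvPolynomial (V × W) F)) (gen F G H e))
      with hK0
    set E := (algebraicClosure K0 (FractionRing (MvPolynomial (V × W) F))).toSubfield with hE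
    have hEmem : ∀ z, z ∈ E ↔ IsAlgebraic K0 z := fun z => mem_algebraicClosure_iff
    have hEalg : ∀ z, IsAlgebraic E z → z ∈ E := by
      intro z hz
      rw [hEmem]
      have hz' : IsAlgebraic (algebraicClosure K0 (FractionRing (MvPolynomial (V × W) F))) z := hz
      exact hz'.restrictScalars K0
    have hEsq : ∀ z, z ^ 2 ∈ E → z ∈ E := by
      intro z hz
      rw [hEmem] at hz ⊢
      exact hz.of_pow two_pos
    have hrel : ∀ i j k l, G.Adj i j → H.Adj k l →
        xx F i k * xx F j l - xx F i l * xx F j k ∈ E := by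
      intro i j k l hij hkl
      obtain ⟨e, he1, he2⟩ := exists_edge hij hkl
      have h2 : xx F e.1.1.1 e.2.1.1 * xx F e.1.1.2 e.2.1.2 -
          xx F e.1.1.1 e.2.1.2 * xx F e.1.1.2 e.2.1.1 ∈ E := by
        rw [← gen_map]
        have h3 : algebraMap (MvPolynomial (V × W) F) (FractionRing (MvPolynomial (V × W) F))
            (gen F G H e) ∈ K0 := IntermediateField.subset_adjoin _ _ ⟨e, rfl⟩
        exact mem_algebraicClosure_iff.2 (isAlgebraic_algebraMap (⟨_, h3⟩ : K0))
      rcases he1 with ⟨a1, a2⟩ | ⟨a1, a2⟩ <;> rcases he2 with ⟨b1, b2⟩ | ⟨b1, b2⟩ <;>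
        rw [a1, a2, b1, b2] at h2
      · exact h2
      · have := neg_mem h2
        convert this using 1
        ring
      · have := neg_mem h2
        convert this using 1
        ring
      · convert h2 using 1
        ring
    have hbase := hBA V W _ G H (xx F) hgen E hEsq hrel a hadja m c hodd hcinj hcadj
    have hrows : ∀ k : W, ∀ i ∈ Set.range a, xx F i k ∈ E := by
      refine prop H hH hH3 {k | ∀ i ∈ Set.range a, xx F i k ∈ E} (c 0) ?_ ?_
      · rintro _ ⟨s, rfl⟩
        exact hbase s 0
      · intro k0 k1 k2 h1 h2 h3 h4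
        refine hSA W V _ H G (fun k i => xx F i k) hgen' (Set.range a) goodA E hEalg ?_
          k0 k1 k2 h1 h2 h3 h4
        intro k l i _ j _ hkl hij
        have := hrel i j k l hij hkl
        rwa [mul_comm (xx F i l)] at this
    have hall : ∀ i : V, ∀ k ∈ (Set.univ : Set W), xx F i k ∈ E := by
      refine prop G hG hG3 {i | ∀ k ∈ (Set.univ : Set W), xx F i k ∈ E} (a 0) ?_ ?_
      · intro k _
        exact hrows k (a 0) ⟨0, rfl⟩
      · intro i0 i1 i2 h1 h2 h3 h4
        exact hSA V W _ G H (xx F) hgen Set.univ goodH E hEalg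
          (fun i j k _ l _ hij hkl => hrel i j k l hij hkl) i0 i1 i2 h1 h2 h3 h4
    intro v
    exact (hEmem _).1 (hall v.1 v.2 (Set.mem_univ _))
  · -- the kernel
    intro h2 u hu
    have hbase := hBL V W _ G H (xx F) h2 hgen u hu a hadja m c hodd hcinj hcadj
    have hrows : ∀ k : W, ∀ i ∈ Set.range a, u i k = 0 := by
      refine prop H hH hH3 {k | ∀ i ∈ Set.range a, u i k = 0} (c 0) ?_ ?_
      · rintro _ ⟨s, rfl⟩
        exact hbase s 0
      · intro k0 k1 k2 h1 h2' h3 h4
        refine hSL W V _ H G (fun k i => xx F i k) hgen' har2 (Set.range a) goodA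
          (fun k i => u i k) ?_ k0 k1 k2 h1 h2' h3 h4
        intro k l i _ j _ hkl hij
        have := hu i j k l hij hkl
        linear_combination this
    have hall : ∀ i : V, ∀ k ∈ (Set.univ : Set W), u i k = 0 := by
      refine prop G hG hG3 {i | ∀ k ∈ (Set.univ : Set W), u i k = 0} (a 0) ?_ ?_
      · intro k _
        exact hrows k (a 0) ⟨0, rfl⟩
      · intro i0 i1 i2 h1 h2' h3 h4
        exact hSL V W _ G H (xx F) hgen har1 Set.univ goodH u
          (fun i j k _ l _ hij hkl => hu i j k l hij hkl) i0 i1 i2 h1 h2' h3 h4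
    intro i k
    exact hall i k (Set.mem_univ _)

end Pool.Agent.KA
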