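import Mathlib

/-!
# MP_188fab_co, part (a): interface

Edges are given by a finite type `ι` and end points `a b : ι → Fin n` with `a e ≠ b e`.
-/

namespace Pool.Agent.KA

open MvPolynomial

/-- The field of rational functions in `x_i = X (i, 0)` and `y_i = X (i, 1)`. -/
abbrev LL (K : Type) [Field K] (n : ℕ) : Type := FractionRing (MvPolynomial (Fin n × Fin 2) K)

/-- The form `f_{i,j} = x_i y_j - x_j y_i`, `p = (i, j)`. -/
noncomputable def fm (F : Type) [Field F] (n : ℕ) (p : Fin n × Fin n) :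
    MvPolynomial (Fin n × Fin 2) F :=
  X (p.1, 0) * X (p.2, 1) - X (p.2, 0) * X (p.1, 1)

/-- The generic vector `v_k = (x_k, y_k)`. -/
noncomputable def vec (K : Type) [Field K] (n : ℕ) (k : Fin n) : Fin 2 → LL K n :=
  fun t => algebraMap (MvPolynomial (Fin n × Fin 2) K) (LL K n) (X (k, t))

/-- The vector of the edge `p = (i, j)`: `v_j` in block `i`, `-v_i` in block `j`. -/
noncomputable def row (K : Type) [Field K] (n : ℕ) (p : Fin n × Fin n) : Fin n × Fin 2 → LL K n :=
  fun q => if q.1 = p.1 then vec K n p.2 q.2 else if q.1 = p.2 then - vec K n p.1 q.2 else 0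

section lists
variable {α ι : Type} [DecidableEq α] [Fintype ι]

/-- Total of `c` over the edges with both ends in `A`. -/
def inn (a b : ι → α) (A : Finset α) (c : ι → ℤ) : ℤ :=
  ∑ e, if a e ∈ A ∧ b e ∈ A then c e else 0

/-- All suffix sums of the list vanish. -/
def Cond (a b : ι → α) : List α → (ι → ℤ) → Prop
  | [], _ => True
  | x :: l, c => inn a b (x :: l).toFinset c = 0 ∧ Cond a b l c

end lists

/-- The bipartite multigraph with edges `inl (t e) - inr (h e)` is a forest (integer form). -/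
def Forest {ι α : Type} [Fintype ι] [DecidableEq α] (t h : ι → α) : Prop :=
  ∀ c : ι → ℤ, (∀ v, ∑ e, (if t e = v then c e else 0) = 0) →
    (∀ v, ∑ e, (if h e = v then c e else 0) = 0) → c = 0

/-- The end of the edge `e` that comes first in the order `σ`. -/
def tl {ι : Type} {n : ℕ} (σ : Equiv.Perm (Fin n)) (a b : ι → Fin n) (e : ι) : Fin n :=
  if σ (a e) < σ (b e) then a e else b e

/-- The end of the edge `e` that comes last in the order `σ`. -/
def hd {ι : Type} {n : ℕ} (σ : Equiv.Perm (Fin n)) (a b : ι → Fin n) (e : ι) : Fin n :=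
  if σ (a e) < σ (b e) then b e else a e

/-! ## The statements of the pieces -/

/-- VAL -/
def VALStm : Prop :=
  ∀ (F L : Type) [Field F] [Field L] [Algebra F L] (m : ℕ) (f : Fin m → L),
    AlgebraicIndependent F f →
    ∃ V : ValuationSubring L, (∀ x : F, algebraMap F L x ∈ V) ∧
      ∀ c : Fin m → ℤ, (∃ i, 0 < c i ∧ ∀ j < i, c j = 0) →
        V.valuation (∏ i, f i ^ c i) < 1

/-- MERGE -/
def MERGEStm : Prop :=
  ∀ (α ι : Type) [DecidableEq α] [Fintype ι] (a b : ι → α), (∀ e, a e ≠ b e) →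
    ∀ l₁ l₂ : List α, l₁ ≠ [] → l₂ ≠ [] → (l₁ ++ l₂).Nodup → ∀ W : AddSubgroup (ι → ℤ),
      (∀ c ∈ W, Cond a b l₁ c → Cond a b l₂ c → inn a b (l₁ ++ l₂).toFinset c = 0 → c = 0) →
      ∃ l : List α, l.Perm (l₁ ++ l₂) ∧ ∀ c ∈ W, Cond a b l c → c = 0

/-- ULT -/
def ULTStm : Prop :=
  ∀ (α ι Γ : Type) [DecidableEq α] [Fintype ι] [LinearOrderedCommGroupWithZero Γ]
    (a b : ι → α), (∀ e, a e ≠ b e) →
    ∀ d : α → α → Γ, (∀ x, d x x = 0) → (∀ x y, d x y = d y x) → (∀ x y, x ≠ y → d x y ≠ 0) →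
      (∀ x y z, d x z ≤ max (d x y) (d y z)) →
      ∀ L : Finset α, L.Nonempty → ∀ W : AddSubgroup (ι → ℤ),
        (∀ c ∈ W, (∏ e, if a e ∈ L ∧ b e ∈ L then d (a e) (b e) ^ c e else 1) = 1 → c = 0) →
        ∃ l : List α, l.Nodup ∧ l.toFinset = L ∧ ∀ c ∈ W, Cond a b l c → c = 0

/-- TREE1 -/
def TREEStm : Prop :=
  ∀ (F : Type) [Field F] (n : ℕ) (ι : Type) [Fintype ι] (a b : ι → Fin n), (∀ e, a e ≠ b e) →
    AlgebraicIndependent F (fun e => fm F n (a e, b e)) →
    ∃ l : List (Fin n), l.Nodup ∧ (∀ x, x ∈ l) ∧ ∀ c : ι → ℤ,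
      (∀ v, ∑ e, (if a e = v then c e else 0) + ∑ e, (if b e = v then c e else 0) = 0) →
      Cond a b l c → c = 0

/-- TREE2 -/
def TREE2Stm : Prop :=
  ∀ (n : ℕ) (ι : Type) [Fintype ι] (a b : ι → Fin n), (∀ e, a e ≠ b e) →
    ∀ l : List (Fin n), l.Nodup → (∀ x, x ∈ l) → (∀ c : ι → ℤ,
      (∀ v, ∑ e, (if a e = v then c e else 0) + ∑ e, (if b e = v then c e else 0) = 0) →
      Cond a b l c → c = 0) →
    ∃ σ : Equiv.Perm (Fin n), Forest (tl σ a b) (hd σ a b)

/-- FORB -/
def FORBStm : Prop :=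
  ∀ (ι α : Type) [Fintype ι] [DecidableEq α] (t h : ι → α), Forest t h →
    ∀ (κ : Type) [Field κ] (c : ι → κ), (∀ v, ∑ e, (if t e = v then c e else 0) = 0) →
      (∀ v, ∑ e, (if h e = v then c e else 0) = 0) → c = 0

/-- FORC -/
def FORCStm : Prop :=
  ∀ (K : Type) [Field K] (n : ℕ) (ι : Type) [Fintype ι] (a b : ι → Fin n), (∀ e, a e ≠ b e) →
    ∀ σ : Equiv.Perm (Fin n), Forest (tl σ a b) (hd σ a b) →
      LinearIndependent (LL K n) (fun e => row K n (a e, b e))

/-- DIRECT -/
def DIRECTStm : Prop :=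
  ∀ (F : Type) [Field F] (n : ℕ) (ι : Type) [Fintype ι] (a b : ι → Fin n), (∀ e, a e ≠ b e) →
    ∀ σ : Equiv.Perm (Fin n), Forest (tl σ a b) (hd σ a b) →
      AlgebraicIndependent F (fun e => fm F n (a e, b e))

/-- The Jacobian criterion in characteristic zero (the easy direction). -/
def JACStm : Prop :=
  ∀ (K : Type) [Field K] [CharZero K] (τ ι : Type) [Finite τ] [Finite ι]
    (g : ι → MvPolynomial τ K),
    LinearIndependent (FractionRing (MvPolynomial τ K))
      (fun (i : ι) (s : τ) => algebraMap (MvPolynomial τ K) (FractionRing (MvPolynomial τ K))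
        (pderiv s (g i))) →
    AlgebraicIndependent K g

/-- The Jacobian criterion over a perfect field of characteristic `p` (the easy direction). -/
def JACPStm : Prop :=
  ∀ (K : Type) [Field K] (p : ℕ) [Fact p.Prime] [CharP K p] [PerfectField K]
    (τ ι : Type) [Finite τ] [Finite ι] (g : ι → MvPolynomial τ K),
    LinearIndependent (FractionRing (MvPolynomial τ K))
      (fun (i : ι) (s : τ) => algebraMap (MvPolynomial τ K) (FractionRing (MvPolynomial τ K))
        (pderiv s (g i))) →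
    AlgebraicIndependent K g

/-- Base change of linear independence of the rows to a larger field. -/
def BCStm : Prop :=
  ∀ (K K' : Type) [Field K] [Field K'] [Algebra K K'] (n : ℕ) (ι : Type) [Fintype ι]
    (a b : ι → Fin n), (∀ e, a e ≠ b e) →
    LinearIndependent (LL K n) (fun e => row K n (a e, b e)) →
    LinearIndependent (LL K' n) (fun e => row K' n (a e, b e))

/-- Row versus Jacobian. -/
def ROWStm : Prop :=
  ∀ (K : Type) [Field K] (n : ℕ) (ι : Type) [Fintype ι] (a b : ι → Fin n), (∀ e, a e ≠ b e) →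
    LinearIndependent (LL K n) (fun e => row K n (a e, b e)) →
    LinearIndependent (FractionRing (MvPolynomial (Fin n × Fin 2) K))
      (fun (e : ι) (s : Fin n × Fin 2) => algebraMap (MvPolynomial (Fin n × Fin 2) K)
        (FractionRing (MvPolynomial (Fin n × Fin 2) K)) (pderiv s (fm K n (a e, b e))))

end Pool.Agent.KA
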