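import Pool.Agent.K1H80.KA.Stm
import Pool.Agent.Results.MP_188fab_co.JacobianCharTwo

/-!
# MP_188fab_co, part (b) for `H = K_2`: interface
-/

namespace Pool.Agent.KA

open MvPolynomial Pool.Agent.Results.MP_188fab_co.JacobianCharTwo

/-- FIB: for quadratic forms the fibre ring `⨁ I^t / m I^t` has the Krull dimension of `F[f]`. -/
def FIBStm : Prop :=
  ∀ (F : Type) [Field F] (σ ι : Type) [Finite ι] (f : ι → MvPolynomial σ F),
    (∀ i, (f i).IsHomogeneous 2) →
    analyticSpread (Ideal.span (Set.range f)) = ringKrullDim (Algebra.adjoin F (Set.range f))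

/-- KD: Krull dimension of a finitely generated domain over a field is its transcendence
degree. -/
def KDStm : Prop :=
  ∀ (F A : Type) [Field F] [CommRing A] [IsDomain A] [Algebra F A] (ι : Type) [Finite ι]
    (f : ι → A) (S : Set ι), AlgebraicIndependent F (fun i : S => f i) →
    (∀ i, i ∉ S → ¬ AlgebraicIndependent F (fun j : (insert i S : Set ι) => f j)) →
    ringKrullDim (Algebra.adjoin F (Set.range f)) = ((Nat.card S : ℕ) : WithBot ℕ∞)

/-- RK: the rank of a matrix is the size of a maximal independent set of rows. -/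
def RKStm : Prop :=
  ∀ (K : Type) [Field K] (ι τ : Type) [Finite ι] [Fintype τ] (M : Matrix ι τ K) (S : Set ι),
    LinearIndependent K (fun i : S => M i) →
    (∀ i, i ∉ S → ¬ LinearIndependent K (fun j : (insert i S : Set ι) => M j)) →
    M.rank = Nat.card S

end Pool.Agent.KA
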