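import Mathlib
import Pool.Agent.K1H80.KA.StmB

/-!
# MP_188fab_co, part (b) for graphs built from a triangle: interface
-/

namespace Pool.Agent.KA

open MvPolynomial Pool.Agent.Results.MP_188fab_co.JacobianCharTwo

/-- The set `A` of vertices of `G` is built from a triangle by adding, one by one, vertices with
two neighbours among the vertices already present. -/
inductive Built {V : Type} [DecidableEq V] (G : SimpleGraph V) : Finset V → Prop
  | tri (a b c : V) : G.Adj a b → G.Adj b c → G.Adj a c → Built G {a, b, c}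
  | ext (A : Finset V) (v a b : V) : Built G A → v ∉ A → a ∈ A → b ∈ A → a ≠ b →
      G.Adj v a → G.Adj v b → Built G (insert v A)

/-- Genericity of the matrix `x`. -/
structure Gen {V W L : Type} [Field L] (x : V → W → L) : Prop where
  ne : ∀ i k, x i k ≠ 0
  two : ∀ i j k l, i ≠ j → k ≠ l → x i k * x j l - x i l * x j k ≠ 0
  three : ∀ (a : Fin 3 → V) (b : Fin 3 → W), Function.Injective a → Function.Injective b →
    (Matrix.of fun s t => x (a s) (b t)).det ≠ 0

/-- CON: a set built from a triangle is connected. -/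
def CONStm : Prop :=
  ∀ (V : Type) [DecidableEq V] (G : SimpleGraph V) (A : Finset V), Built G A →
    ∀ (T : Type) (g : V → T), (∀ k ∈ A, ∀ l ∈ A, G.Adj k l → g k = g l) →
      ∀ k ∈ A, ∀ l ∈ A, g k = g l

/-- LIN: the kernel of the Jacobian matrix is trivial if `2 ≠ 0`. -/
def LINStm : Prop :=
  ∀ (V W L : Type) [DecidableEq V] [DecidableEq W] [Field L] (G : SimpleGraph V)
    (H : SimpleGraph W) (x : V → W → L), (2 : L) ≠ 0 → Gen x → ∀ u : V → W → L,
    (∀ i j k l, G.Adj i j → H.Adj k l →
      u i k * x j l + x i k * u j l - u i l * x j k - x i l * u j k = 0) →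
    ∀ A B, Built G A → Built H B → ∀ i ∈ A, ∀ k ∈ B, u i k = 0

/-- ALG: a subfield closed under square roots which contains all the binomials contains all the
variables. -/
def ALGStm : Prop :=
  ∀ (V W L : Type) [DecidableEq V] [DecidableEq W] [Field L] (G : SimpleGraph V)
    (H : SimpleGraph W) (x : V → W → L), Gen x → ∀ E : Subfield L, (∀ z, z ^ 2 ∈ E → z ∈ E) →
    (∀ i j k l, G.Adj i j → H.Adj k l → x i k * x j l - x i l * x j k ∈ E) →
    ∀ A B, Built G A → Built H B → ∀ i ∈ A, ∀ k ∈ B, x i k ∈ E

/-- GEN: the matrix of variables is generic. -/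
def GENStm : Prop :=
  ∀ (F V W : Type) [Field F], Gen (fun (i : V) (k : W) =>
    algebraMap (MvPolynomial (V × W) F) (FractionRing (MvPolynomial (V × W) F)) (X (i, k)))

/-- TRB: if all the variables are algebraic over `F(f)`, then a maximal algebraically independent
subfamily of `f` has as many elements as there are variables. -/
def TRBStm : Prop :=
  ∀ (F σ ι : Type) [Field F] [Finite σ] [Finite ι] (f : ι → MvPolynomial σ F) (S : Set ι),
    AlgebraicIndependent F (fun i : S => f i) →
    (∀ i, i ∉ S → ¬ AlgebraicIndependent F (fun j : (insert i S : Set ι) => f j)) →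
    (∀ v : σ, IsAlgebraic (IntermediateField.adjoin F (Set.range fun i =>
        algebraMap (MvPolynomial σ F) (FractionRing (MvPolynomial σ F)) (f i)))
      (algebraMap (MvPolynomial σ F) (FractionRing (MvPolynomial σ F)) (X v))) →
    Nat.card S = Nat.card σ

/-- RKC: rank and kernel. -/
def RKCStm : Prop :=
  ∀ (K ι τ : Type) [Field K] [Finite ι] [Fintype τ] (M : Matrix ι τ K),
    ((∀ u : τ → K, M.mulVec u = 0 → u = 0) → M.rank = Fintype.card τ) ∧
    (∀ u : τ → K, u ≠ 0 → M.mulVec u = 0 → M.rank < Fintype.card τ)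

end Pool.Agent.KA
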