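import Pool.Agent.K1H80.KA.StmC

/-!
# MP_188fab_co, part (b) for connected graphs of minimum degree two, one with a triangle: interface
-/

namespace Pool.Agent.KA

open MvPolynomial

/-- The area condition, for cycles in the second index. -/
def Area {V W L : Type} [Field L] (x : V → W → L) : Prop :=
  ∀ (m : ℕ) (c : Fin (m + 3) → W), Function.Injective c → ∀ i j v : V, i ≠ j → i ≠ v → j ≠ v →
    ∑ t, (x i (c t) * x j (c (t + 1)) - x i (c (t + 1)) * x j (c t)) /
      (x v (c t) * x v (c (t + 1))) ≠ 0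

/-- `B` is connected in `H` and contains a cycle. -/
structure Good {W : Type} (H : SimpleGraph W) (B : Set W) : Prop where
  con : ∀ (T : Type) (g : W → T), (∀ k ∈ B, ∀ l ∈ B, H.Adj k l → g k = g l) →
    ∀ k ∈ B, ∀ l ∈ B, g k = g l
  cyc : ∃ (m : ℕ) (c : Fin (m + 3) → W), Function.Injective c ∧ (∀ t, c t ∈ B) ∧
    ∀ t, H.Adj (c t) (c (t + 1))

/-- STEPLIN -/
def STEPLINStm : Prop :=
  ∀ (V W L : Type) [Field L] (G : SimpleGraph V) (H : SimpleGraph W) (x : V → W → L), Gen x →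
    Area x → ∀ B : Set W, Good H B → ∀ u : V → W → L,
    (∀ i j, ∀ k ∈ B, ∀ l ∈ B, G.Adj i j → H.Adj k l →
      u i k * x j l + x i k * u j l - u i l * x j k - x i l * u j k = 0) →
    ∀ a v y, G.Adj a v → G.Adj v y → a ≠ y → (∀ k ∈ B, u a k = 0) → ∀ k ∈ B, u v k = 0

/-- BASELIN -/
def BASELINStm : Prop :=
  ∀ (V W L : Type) [Field L] (G : SimpleGraph V) (H : SimpleGraph W) (x : V → W → L),
    (2 : L) ≠ 0 → Gen x → ∀ u : V → W → L,
    (∀ i j k l, G.Adj i j → H.Adj k l →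
      u i k * x j l + x i k * u j l - u i l * x j k - x i l * u j k = 0) →
    ∀ a : Fin 3 → V, (∀ s t, s ≠ t → G.Adj (a s) (a t)) →
    ∀ (m : ℕ) (c : Fin (m + 3) → W), Odd (m + 3) → Function.Injective c →
    (∀ t, H.Adj (c t) (c (t + 1))) → ∀ s t, u (a s) (c t) = 0

/-- STEPALG -/
def STEPALGStm : Prop :=
  ∀ (V W L : Type) [Field L] (G : SimpleGraph V) (H : SimpleGraph W) (x : V → W → L), Gen x →
    ∀ B : Set W, Good H B → ∀ E : Subfield L, (∀ z, IsAlgebraic E z → z ∈ E) →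
    (∀ i j, ∀ k ∈ B, ∀ l ∈ B, G.Adj i j → H.Adj k l → x i k * x j l - x i l * x j k ∈ E) →
    ∀ a v y, G.Adj a v → G.Adj v y → a ≠ y → (∀ k ∈ B, x a k ∈ E) → ∀ k ∈ B, x v k ∈ E

/-- BASEALG -/
def BASEALGStm : Prop :=
  ∀ (V W L : Type) [Field L] (G : SimpleGraph V) (H : SimpleGraph W) (x : V → W → L), Gen x →
    ∀ E : Subfield L, (∀ z, z ^ 2 ∈ E → z ∈ E) →
    (∀ i j k l, G.Adj i j → H.Adj k l → x i k * x j l - x i l * x j k ∈ E) →
    ∀ a : Fin 3 → V, (∀ s t, s ≠ t → G.Adj (a s) (a t)) →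
    ∀ (m : ℕ) (c : Fin (m + 3) → W), Odd (m + 3) → Function.Injective c →
    (∀ t, H.Adj (c t) (c (t + 1))) → ∀ s t, x (a s) (c t) ∈ E

/-- AREA: the matrix of variables satisfies the area condition in both indices. -/
def AREAStm : Prop :=
  ∀ (F V W : Type) [Field F],
    Area (fun (i : V) (k : W) =>
      algebraMap (MvPolynomial (V × W) F) (FractionRing (MvPolynomial (V × W) F)) (X (i, k))) ∧
    Area (fun (k : W) (i : V) =>
      algebraMap (MvPolynomial (V × W) F) (FractionRing (MvPolynomial (V × W) F)) (X (i, k)))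

/-- NB: a graph which is not bipartite contains an odd cycle. -/
def NBStm : Prop :=
  ∀ (W : Type) [Finite W] (H : SimpleGraph W), ¬ H.Colorable 2 →
    ∃ (m : ℕ) (c : Fin (m + 3) → W), Odd (m + 3) ∧ Function.Injective c ∧
      ∀ t, H.Adj (c t) (c (t + 1))

end Pool.Agent.KA
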